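import Pool.Agent.AF80.Main

/-!
# Additive polynomials and the valuation: a decidable part of the theory of `F_p[[t]]`

For every prime `p` there is an algorithm which decides, for every first order formula built from
the following atomic formulas (any number of variables and quantifiers), whether it holds in
`F_p[[t]]` when its free variables are read as `0`:

* `a = b`, where `a`, `b` are terms built from `0`, `1` and variables by `+`, `-`, multiplication
  by `t` and the Frobenius map `x ↦ x ^ p` (all additive polynomials over `F_p[t]`, in any number
  of variables, with constants in `F_p[t]`),
* `x_i x_j` divides `x_k x_l`, that is, `v(x_i) + v(x_j) ≤ v(x_k) + v(x_l)`,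
* `x_i` is a `d`-th power.
-/

open AF80

namespace Pool.Agent.Results.MP_909098_lc.AdditiveFragment

theorem result (p : ℕ) [Fact p.Prime] :
    ∃ D : List ℕ → Bool, Computable D ∧ ∀ φ : AFm, (D φ.code = true ↔
      φ.Holds p (PowerSeries.X : PowerSeries (ZMod p)) (fun _ => 0)) :=
  afm_main p

end Pool.Agent.Results.MP_909098_lc.AdditiveFragment
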