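import Pool.Agent.BF80.MainV

/-!
# Relations of dimension one and the valuation: a decidable part of the theory of `F_p((t))`

For every prime `p` there are algorithms which decide, for every first order formula built from the
following atomic formulas (any number of variables and quantifiers), whether it holds in `F_p((t))`,
respectively in `F_p[[t]]`, when its free variables are read as `0`:

* `a(x_i, x_j) = b(x_i, x_j)`,
* `s_k(x_i, x_(j_k)) = 0` and `s_k(x_i, ·)` is not identically zero for `k = 1, …, n`, and
  `a(x_i, x_(j_1), …, x_(j_n)) = b(x_i, x_(j_1), …, x_(j_n))`,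
* `x_i x_j` divides `x_k x_l` (over `F_p[[t]]`),

where `a`, `b`, `s_k` are terms of the language `{+, -, ·, 0, 1, t}`.
-/

open BF80

namespace Pool.Agent.Results.MP_909098_lc.DimensionOneFragment

theorem result (p : ℕ) [Fact p.Prime] :
    (∃ D : List ℕ → Bool, Computable D ∧ ∀ φ : VFm, (D φ.code = true ↔
      φ.Holds (HahnSeries.single 1 1 : LaurentSeries (ZMod p))
        (fun a b => ∃ c : PowerSeries (ZMod p), (c : LaurentSeries (ZMod p)) * a = b)
        (fun _ => 0))) ∧
    (∃ D : List ℕ → Bool, Computable D ∧ ∀ φ : VFm, (D φ.code = true ↔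
      φ.Holds (PowerSeries.X : PowerSeries (ZMod p)) (fun a b => a ∣ b) (fun _ => 0))) :=
  vfm_main p

end Pool.Agent.Results.MP_909098_lc.DimensionOneFragment
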