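import Pool.Agent.LD90.Main

/-!
# Hilbert's tenth problem for `F_p((t))` in low degree

For every prime `p` there is an algorithm which, given finitely many polynomials `f_1, …, f_m` and
a polynomial `g` over `F_p[t]`, in any number of variables, with
`(deg f_1 - 1) + … + (deg f_m - 1) ≤ 2` (each term being at least `0`), decides whether there is a
point `x` with coordinates in `F_p((t))` such that `f_1(x) = … = f_m(x) = 0` and `g(x) ≠ 0`.

So the nonlinear equations are: one of degree at most `3`, or two of degree `2`; the number of
linear equations and the degree of `g` are arbitrary. Polynomials are given as lists of monomials,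
`(k, [i_1, …, i_r])` stands for `t ^ k * x_{i_1} * ⋯ * x_{i_r}`.
-/

namespace Pool.Agent.Results.MP_909098_lc.LowDegree

open LD90

theorem result (p : ℕ) [Fact p.Prime] :
    ∃ D : List PL × PL → Bool, Computable D ∧
      ∀ (F : List PL) (g : PL), (F.map fun f => deg f - 1).sum ≤ 2 →
        (D (F, g) = true ↔ ∃ x : ℕ → LaurentSeries (ZMod p),
          (∀ f ∈ F, ev (HahnSeries.single 1 1) x f = 0) ∧ ev (HahnSeries.single 1 1) x g ≠ 0) := by
  obtain ⟨D, hD, h⟩ := low_degree p
  exact ⟨D, hD, fun F g hF => h (F, g) hF⟩

end Pool.Agent.Results.MP_909098_lc.LowDegree
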