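import Pool.Agent.FS90.Main

/-!
# MP_909098_lc: first-order conditions with affine polynomials over curves in `F_p((t))`

For every prime `p` there is an algorithm which decides sentences `∃ s_0 φ` over `K = F_p((t))`,
where `φ` is a prenex formula. Its quantifiers are `∃ z_i` and `∀ z_i` over `K`, and `∃ s_i` and
`∀ s_i` over the roots of a polynomial `b(s)` which is not identically zero in `s_i`, in any number
and order. Its matrix is a Boolean combination of the atomic conditions: `P = 0`; `P'` is in
`F_p[[t]] P`; `P` is a value of a form over `F_p[t]` (see `NS90.Form`); `l(s,z)` is a value of a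
polynomial `q(s,·)` of degree at most two. Here `P` and `P'` are products of polynomials `l(s,z)`
of degree at most one in `z` whose coefficients are arbitrary polynomials in `s` over `F_p[t]`.
-/

namespace Pool.Agent.Results.MP_909098_lc.SemiAffine

open FS90

/-- the uniformizer `t` of `F_p((t))` -/
noncomputable abbrev T (p : ℕ) [Fact p.Prime] : LaurentSeries (ZMod p) := HahnSeries.single 1 1

/-- divisibility over `F_p[[t]]` in `F_p((t))` -/
abbrev Dvd (p : ℕ) [Fact p.Prime] (x y : LaurentSeries (ZMod p)) : Prop :=
  ∃ c : PowerSeries (ZMod p), (c : LaurentSeries (ZMod p)) * x = y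

theorem result (p : ℕ) [Fact p.Prime] :
    ∃ D : List Qn × Mat → Bool, Computable D ∧ ∀ (π : List Qn) (m : Mat),
      (∀ c ∈ m, ∀ x ∈ c, Atm.Adm p x.2) →
        (D (π, m) = true ↔ ∃ s₀ : LaurentSeries (ZMod p),
          Holds (T p) (Dvd p) m π (Function.update (fun _ => 0) 0 s₀) fun _ => 0) := by
  obtain ⟨D, hD, h⟩ := FS90.main p
  exact ⟨D, hD, fun π m hm => h (π, m) hm⟩

end Pool.Agent.Results.MP_909098_lc.SemiAffine
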